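import Mathlib

/-! Anisotropic systems of forms and their compositions. -/

set_option autoImplicit false

open MvPolynomial

namespace Pool.Agent.H19CI

variable {K : Type*} [Field K]

/-- the family `f` of polynomials has only the trivial common zero -/
def Aniso {σ T : Type*} (f : T → MvPolynomial σ K) : Prop :=
  ∀ x : σ → K, (∀ t, eval x (f t) = 0) → x = 0

/-- substitution of forms of degree `b` in a form of degree `a` -/
theorem bind_hom {σ τ : Type*} (A : MvPolynomial σ K) (g : σ → MvPolynomial τ K) (a b : ℕ)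
    (hA : A.IsHomogeneous a) (hg : ∀ s, (g s).IsHomogeneous b) :
    (bind₁ g A).IsHomogeneous (a * b) := by
  classical
  rw [bind₁, aeval_def, eval₂_eq]
  refine IsHomogeneous.sum _ _ _ fun m hm => ?_
  have h1 : (∏ i ∈ m.support, g i ^ m i).IsHomogeneous (∑ i ∈ m.support, b * m i) :=
    IsHomogeneous.prod _ _ _ fun i _ => (hg i).pow (m i)
  have h2 : ∑ i ∈ m.support, b * m i = a * b := by
    have h3 := hA (mem_support_iff.1 hm)
    rw [← Finset.mul_sum, mul_comm]
    congr 1
    rw [← h3]
    simp [Finsupp.weight_apply, Finsupp.sum]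
  rw [h2] at h1
  have h4 := (isHomogeneous_C (τ) (coeff m A)).mul h1
  rw [zero_add] at h4
  exact h4

theorem eval_bind {σ τ : Type*} (A : MvPolynomial σ K) (g : σ → MvPolynomial τ K) (x : τ → K) :
    eval x (bind₁ g A) = eval (fun s => eval x (g s)) A := by
  induction A using MvPolynomial.induction_on with
  | C a => simp
  | add P Q hP hQ => rw [map_add, map_add, hP, hQ, map_add]
  | mul_X P s hP => rw [map_mul, map_mul, hP, map_mul, bind₁_X_right, eval_X]

/-- the copy of the form `g` in the variables `(b, ·)` -/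
noncomputable def copy {B V : Type*} (g : MvPolynomial V K) (b : B) : MvPolynomial (B × V) K :=
  rename (fun v => (b, v)) g

theorem copy_hom {B V : Type*} (g : MvPolynomial V K) (b : B) {d : ℕ} (h : g.IsHomogeneous d) :
    (copy g b).IsHomogeneous d := h.rename_isHomogeneous

theorem eval_copy {B V : Type*} (g : MvPolynomial V K) (b : B) (x : B × V → K) :
    eval x (copy g b) = eval (fun v => x (b, v)) g := by
  rw [copy, eval_rename]
  rfl

/-- the form `A` applied to forms of the same degree, all copied in disjoint sets of variables -/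
theorem comp_step {σ V : Type*} (A : MvPolynomial σ K) (a b : ℕ) (hA : A.IsHomogeneous a)
    (g : σ → MvPolynomial V K) (hg : ∀ s, (g s).IsHomogeneous b)
    (hani : ∀ y : σ → K, eval y A = 0 → y = 0) :
    (bind₁ g A).IsHomogeneous (a * b) ∧
      ∀ x : V → K, eval x (bind₁ g A) = 0 → ∀ s, eval x (g s) = 0 := by
  refine ⟨bind_hom A g a b hA hg, fun x hx s => ?_⟩
  rw [eval_bind] at hx
  exact congrFun (hani _ hx) s

/-- There is an anisotropic form of degree `a` in the variables `σ`. -/
def HasForm (K : Type*) [Field K] (a : ℕ) (σ : Type) : Prop :=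
  ∃ A : MvPolynomial σ K, A.IsHomogeneous a ∧ ∀ x : σ → K, eval x A = 0 → x = 0

theorem HasForm.comp {a b : ℕ} {σ τ : Type} (hA : HasForm K a σ) (hB : HasForm K b τ) :
    HasForm K (a * b) (σ × τ) := by
  obtain ⟨A, hA1, hA2⟩ := hA
  obtain ⟨B, hB1, hB2⟩ := hB
  obtain ⟨h1, h2⟩ := comp_step (σ := σ) A a b hA1 (fun s => copy B s)
    (fun s => copy_hom B s hB1) hA2
  refine ⟨_, h1, fun x hx => ?_⟩
  funext v
  obtain ⟨s, t⟩ := v
  have h3 := h2 x hx s
  rw [eval_copy] at h3
  exact congrFun (hB2 _ h3) t

theorem HasForm.of_injective {a : ℕ} {σ τ : Type} (hA : HasForm K a σ) (f : τ → σ)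
    (hf : Function.Injective f) : HasForm K a τ := by
  classical
  obtain ⟨A, hA1, hA2⟩ := hA
  refine ⟨bind₁ (fun s => if h : ∃ t, f t = s then X h.choose else 0) A, ?_, fun x hx => ?_⟩
  · have := bind_hom A (fun s => if h : ∃ t, f t = s then (X h.choose : MvPolynomial τ K) else 0)
      a 1 hA1 (fun s => by
        split_ifs with h
        · exact isHomogeneous_X K _
        · exact isHomogeneous_zero _ _ _)
    rwa [mul_one] at this
  · rw [eval_bind] at hx
    funext t
    have h1 := congrFun (hA2 _ hx) (f t)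
    have h2 : ∃ t', f t' = f t := ⟨t, rfl⟩
    have h3 : h2.choose = t := hf h2.choose_spec
    simp only [dif_pos h2, eval_X, h3] at h1
    exact h1

/-- The field `K` is `C_i`. -/
def IsC (K : Type*) [Field K] (i : ℕ) : Prop :=
  ∀ (n d : ℕ) (f : MvPolynomial (Fin n) K), 0 < d → f.IsHomogeneous d → d ^ i < n →
    ∃ x : Fin n → K, x ≠ 0 ∧ eval x f = 0

theorem HasForm.card_le {i : ℕ} (hK : IsC K i) {a : ℕ} (ha : 0 < a) {σ : Type} [Fintype σ]
    (h : HasForm K a σ) : Fintype.card σ ≤ a ^ i := by
  by_contra hlt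
  push Not at hlt
  obtain ⟨A, hA1, hA2⟩ := h.of_injective (Fintype.equivFin σ).symm
    (Fintype.equivFin σ).symm.injective
  obtain ⟨x, hx0, hx⟩ := hK _ a A ha hA1 hlt
  exact hx0 (hA2 x hx)

/-- A field which is not algebraically closed has an anisotropic binary form. -/
theorem exists_binary (h : ¬ IsAlgClosed K) : ∃ e, 0 < e ∧ HasForm K e (Fin 2) := by
  have h1 : ∃ P : Polynomial K, P.Monic ∧ Irreducible P ∧ ¬ ∃ x, Polynomial.eval x P = 0 := by
    by_contra hcon
    push Not at hcon
    exact h (IsAlgClosed.of_exists_root K fun P hP1 hP2 => hcon P hP1 hP2)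
  obtain ⟨P, hP1, hP2, hP3⟩ := h1
  refine ⟨P.natDegree, hP2.natDegree_pos, ∑ j ∈ Finset.range (P.natDegree + 1),
    C (P.coeff j) * (X 0 ^ j * X 1 ^ (P.natDegree - j)), ?_, fun x hx => ?_⟩
  · refine IsHomogeneous.sum _ _ _ fun j hj => ?_
    have hj' : j ≤ P.natDegree := Nat.lt_succ_iff.1 (Finset.mem_range.1 hj)
    have h1 := (isHomogeneous_C (Fin 2) (P.coeff j)).mul
      (((isHomogeneous_X K (0 : Fin 2)).pow j).mul
        ((isHomogeneous_X K (1 : Fin 2)).pow (P.natDegree - j)))
    have h2 : 0 + (1 * j + 1 * (P.natDegree - j)) = P.natDegree := by omega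
    rwa [h2] at h1
  · simp only [map_sum, map_mul, eval_C, map_pow, eval_X] at hx
    have hdeg : 0 < P.natDegree := hP2.natDegree_pos
    have hx1 : x 1 = 0 := by
      by_contra h1
      apply hP3
      refine ⟨x 0 / x 1, ?_⟩
      have h2 : Polynomial.eval (x 0 / x 1) P * x 1 ^ P.natDegree = 0 := by
        rw [← hx, Polynomial.eval_eq_sum_range, Finset.sum_mul]
        refine Finset.sum_congr rfl fun j hj => ?_
        have hj' : j ≤ P.natDegree := Nat.lt_succ_iff.1 (Finset.mem_range.1 hj)
        have h3 : x 1 ^ P.natDegree = x 1 ^ j * x 1 ^ (P.natDegree - j) := by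
          rw [← pow_add]; congr 1; omega
        rw [h3, div_pow]
        field_simp
      exact (mul_eq_zero.1 h2).resolve_right (pow_ne_zero _ h1)
    have hx0 : x 0 = 0 := by
      rw [hx1, Finset.sum_range_succ] at hx
      have h2 : ∑ j ∈ Finset.range P.natDegree, P.coeff j * (x 0 ^ j * (0 : K) ^ (P.natDegree - j))
          = 0 := Finset.sum_eq_zero fun j hj => by
        have := Finset.mem_range.1 hj
        rw [zero_pow (by omega), mul_zero, mul_zero]
      rw [h2, zero_add, Nat.sub_self, pow_zero, mul_one] at hx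
      have h3 : P.coeff P.natDegree = 1 := hP1
      rw [h3, one_mul] at hx
      exact (pow_eq_zero_iff hdeg.ne').1 hx
    funext i
    fin_cases i
    · exact hx0
    · exact hx1

end Pool.Agent.H19CI
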