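import Pool.Agent.H19CI.A

/-! Systems of forms of the same degree over a `C_i` field (Lang, Nagata). -/

set_option autoImplicit false

open MvPolynomial

namespace Pool.Agent.H19CI

variable {K : Type*} [Field K]

theorem HasForm.mono {a m m' : ℕ} (h : HasForm K a (Fin m)) (hm : m' ≤ m) :
    HasForm K a (Fin m') :=
  h.of_injective (Fin.castLE hm) (Fin.castLE_injective hm)

theorem HasForm.toFin {a : ℕ} {σ : Type} [Fintype σ] (h : HasForm K a σ) :
    HasForm K a (Fin (Fintype.card σ)) :=
  h.of_injective (Fintype.equivFin σ).symm (Fintype.equivFin σ).symm.injective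

theorem HasForm.compFin {a b m l : ℕ} (hA : HasForm K a (Fin m)) (hB : HasForm K b (Fin l)) :
    HasForm K (a * b) (Fin (m * l)) := by
  have := (hA.comp hB).toFin
  simpa using this

theorem HasForm.powFin {a m : ℕ} (hA : HasForm K a (Fin m)) (k : ℕ) :
    HasForm K (a ^ (k + 1)) (Fin (m ^ (k + 1))) := by
  induction k with
  | zero => simpa using hA
  | succ k ih =>
    rw [pow_succ a, pow_succ m]
    exact ih.compFin hA

/-- insert an anisotropic system in an anisotropic form -/
theorem HasForm.insert {V T : Type} [Fintype V] [Fintype T] (g : T → MvPolynomial V K) (D : ℕ)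
    (hg : ∀ t, (g t).IsHomogeneous D) (hani : Aniso g) {a u : ℕ}
    (h : HasForm K a (Fin (Fintype.card T * u))) :
    HasForm K (a * D) (Fin (u * Fintype.card V)) := by
  classical
  have h1 : HasForm K a (T × Fin u) := by
    have e : T × Fin u ≃ Fin (Fintype.card T * u) :=
      Fintype.equivOfCardEq (by simp)
    exact h.of_injective e e.injective
  obtain ⟨A, hA1, hA2⟩ := h1
  obtain ⟨h2, h3⟩ := comp_step A a D hA1 (fun s : T × Fin u => copy (g s.1) s.2)
    (fun s => copy_hom _ _ (hg s.1)) hA2
  have h4 : HasForm K (a * D) (Fin u × V) := by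
    refine ⟨_, h2, fun x hx => ?_⟩
    funext v
    obtain ⟨b, v⟩ := v
    have h5 : (fun v => x (b, v)) = 0 := hani _ fun t => by
      have := h3 x hx (t, b)
      rwa [eval_copy] at this
    exact congrFun h5 v
  simpa using h4.toFin

theorem bern (X l : ℕ) : X ^ l * (X + l) ≤ X * (X + 1) ^ l := by
  induction l with
  | zero => simp
  | succ l ih =>
    calc X ^ (l + 1) * (X + (l + 1)) ≤ (X ^ l * (X + l)) * (X + 1) := by
          rw [pow_succ]; nlinarith [Nat.zero_le (X ^ l * l)]
      _ ≤ (X * (X + 1) ^ l) * (X + 1) := Nat.mul_le_mul_right _ ih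
      _ = X * (X + 1) ^ (l + 1) := by ring

theorem nagata {i : ℕ} (hK : IsC K i) (halg : ¬ IsAlgClosed K) {V T : Type} [Fintype V]
    [Fintype T] (g : T → MvPolynomial V K) (D : ℕ) (hD : 0 < D)
    (hg : ∀ t, (g t).IsHomogeneous D) (hlt : Fintype.card T * D ^ i < Fintype.card V) :
    ∃ x : V → K, x ≠ 0 ∧ ∀ t, eval x (g t) = 0 := by
  classical
  by_contra hcon
  push Not at hcon
  have hani : Aniso g := by
    intro x hx
    by_contra h
    obtain ⟨t, ht⟩ := hcon x h
    exact ht (hx t)
  have hVpos : 0 < Fintype.card V := by omega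
  have hr : 0 < Fintype.card T := by
    rcases Nat.eq_zero_or_pos (Fintype.card T) with h | h
    · exfalso
      have : IsEmpty T := Fintype.card_eq_zero_iff.1 h
      obtain ⟨v⟩ := Fintype.card_pos_iff.1 hVpos
      obtain ⟨t, -⟩ := hcon (fun _ => 1) (fun h => one_ne_zero (congrFun h v))
      exact this.elim t
    · exact h
  obtain ⟨e, he, hbin⟩ := exists_binary (K := K) halg
  set r := Fintype.card T with hrdef
  set n := Fintype.card V with hndef
  -- the start
  have hstart := (hbin.powFin (r * (2 * r))).mono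
    (show r * (2 * r) ≤ 2 ^ (r * (2 * r) + 1) from
      (Nat.lt_two_pow_self).le.trans (Nat.pow_le_pow_right (by norm_num) (Nat.le_succ _)))
  set a0 := e ^ (r * (2 * r) + 1) with ha0
  have ha0pos : 0 < a0 := Nat.pow_pos he
  have hDi : 0 < D ^ i := Nat.pow_pos hD
  set X := 2 * r * D ^ i with hX
  have hXpos : 0 < X := by positivity
  have hseq : ∀ l : ℕ, ∃ u, HasForm K (a0 * D ^ l) (Fin (r * u)) ∧ 2 * r ≤ u ∧
      2 * r * (X + 1) ^ l ≤ u * (2 * r) ^ l := by
    intro l
    induction l with
    | zero => exact ⟨2 * r, by simpa using hstart, le_rfl, by simp⟩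
    | succ l ih =>
      obtain ⟨u, hu1, hu2, hu3⟩ := ih
      have h1 := HasForm.insert g D hg hani hu1
      rw [← hndef] at h1
      refine ⟨u * n / r, ?_, ?_, ?_⟩
      · have h2 := h1.mono (Nat.mul_div_le (u * n) r)
        rwa [mul_assoc, ← pow_succ] at h2
      · have h3 : u * n < r * (u * n / r) + r := by
          have := Nat.lt_mul_div_succ (u * n) hr
          rw [Nat.mul_add, Nat.mul_one] at this
          exact this
        have h4 : u * (r * D ^ i + 1) ≤ u * n := Nat.mul_le_mul_left _ (by omega)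
        have h5 : u * r ≤ u * (r * D ^ i) := Nat.mul_le_mul_left _ (Nat.le_mul_of_pos_right _ hDi)
        have h6 : u * (r * D ^ i + 1) = u * (r * D ^ i) + u := by ring
        have h7 : r * u < r * (u * n / r) + 1 * r - u + 1 ∨ r * u ≤ r * (u * n / r) := by
          right
          have h8 : u * r = r * u := mul_comm _ _
          omega
        rcases h7 with h7 | h7
        · have h8 : u * r = r * u := mul_comm _ _
          have h9 : r * u ≤ r * (u * n / r) := by omega
          exact hu2.trans (Nat.le_of_mul_le_mul_left h9 hr)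
        · exact hu2.trans (Nat.le_of_mul_le_mul_left h7 hr)
      · have h3 : u * n < r * (u * n / r) + r := by
          have := Nat.lt_mul_div_succ (u * n) hr
          rw [Nat.mul_add, Nat.mul_one] at this
          exact this
        have h4 : u * (r * D ^ i + 1) ≤ u * n := Nat.mul_le_mul_left _ (by omega)
        have h5 : u * (X + 1) ≤ u * n / r * (2 * r) := by
          have h6 : u * (X + 1) = 2 * (u * (r * D ^ i)) + u := by rw [hX]; ring
          have h7 : u * n / r * (2 * r) = 2 * (r * (u * n / r)) := by ring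
          have h8 : u * (r * D ^ i + 1) = u * (r * D ^ i) + u := by ring
          rw [h6, h7]
          omega
        calc 2 * r * (X + 1) ^ (l + 1) = 2 * r * (X + 1) ^ l * (X + 1) := by ring
          _ ≤ u * (2 * r) ^ l * (X + 1) := Nat.mul_le_mul_right _ hu3
          _ = u * (X + 1) * (2 * r) ^ l := by ring
          _ ≤ u * n / r * (2 * r) * (2 * r) ^ l := Nat.mul_le_mul_right _ h5
          _ = u * n / r * (2 * r) ^ (l + 1) := by ring
  obtain ⟨u, hu1, hu2, hu3⟩ := hseq (a0 ^ i * X)
  set l := a0 ^ i * X with hl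
  have h1 := hu1.card_le hK (by positivity)
  rw [Fintype.card_fin] at h1
  have h2 : r * u * (2 * r) ^ l ≤ a0 ^ i * X ^ l := by
    calc r * u * (2 * r) ^ l ≤ (a0 * D ^ l) ^ i * (2 * r) ^ l := Nat.mul_le_mul_right _ h1
      _ = a0 ^ i * X ^ l := by rw [hX]; ring
  have h3 : r * (2 * r * (X + 1) ^ l) ≤ a0 ^ i * X ^ l := by
    calc r * (2 * r * (X + 1) ^ l) ≤ r * (u * (2 * r) ^ l) := Nat.mul_le_mul_left _ hu3
      _ = r * u * (2 * r) ^ l := by ring
      _ ≤ _ := h2
  have h4 : r * (2 * r) * (X ^ l * (X + l)) ≤ X ^ l * (a0 ^ i * X) := by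
    calc r * (2 * r) * (X ^ l * (X + l)) ≤ r * (2 * r) * (X * (X + 1) ^ l) :=
          Nat.mul_le_mul_left _ (bern X l)
      _ = X * (r * (2 * r * (X + 1) ^ l)) := by ring
      _ ≤ X * (a0 ^ i * X ^ l) := Nat.mul_le_mul_left _ h3
      _ = X ^ l * (a0 ^ i * X) := by ring
  have h5 : r * (2 * r) * (X + l) ≤ a0 ^ i * X := by
    have h6 : X ^ l * (r * (2 * r) * (X + l)) ≤ X ^ l * (a0 ^ i * X) := by
      calc X ^ l * (r * (2 * r) * (X + l)) = r * (2 * r) * (X ^ l * (X + l)) := by ring
        _ ≤ _ := h4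
    exact Nat.le_of_mul_le_mul_left h6 (Nat.pow_pos hXpos)
  have h6 : X + l ≤ r * (2 * r) * (X + l) := Nat.le_mul_of_pos_left _ (by positivity)
  omega

end Pool.Agent.H19CI
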