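import Pool.Agent.H19CI.B

/-! Systems of forms of different degrees over a `C_i` field. -/

set_option autoImplicit false

open MvPolynomial

namespace Pool.Agent.H19CI

variable {K : Type*} [Field K]

theorem system {i : ℕ} (hK : IsC K i) (halg : ¬ IsAlgClosed K) {J ι : Type} [Fintype J]
    [Fintype ι] (f : J → MvPolynomial ι K) (d : J → ℕ) (hf : ∀ j, (f j).IsHomogeneous (d j))
    (D : ℕ) (hD : 0 < D) (e m : J → ℕ) (he : ∀ j, e j * d j = D) (hm : ∀ j, 0 < m j)
    (hN : ∀ j, HasForm K (e j) (Fin (m j)))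
    (hlt : ∑ j, (D : ℚ) ^ i / m j < Fintype.card ι) :
    ∃ x : ι → K, x ≠ 0 ∧ ∀ j, eval x (f j) = 0 := by
  classical
  choose N hN1 hN2 using hN
  let P := ∀ j, Fin (m j)
  let R : J → Type := fun j => ∀ j' : {j' : J // j' ≠ j}, Fin (m (j' : J))
  let E : ∀ j, P ≃ Fin (m j) × R j := fun j => Equiv.piSplitAt j fun j => Fin (m j)
  let T := Σ j, R j
  have hP : 0 < Fintype.card P := by
    rw [Fintype.card_pi]
    exact Finset.prod_pos fun j _ => by simpa using hm j
  have hcard : ∀ j, Fintype.card P = m j * Fintype.card (R j) := fun j => by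
    rw [Fintype.card_congr (E j), Fintype.card_prod, Fintype.card_fin]
  let g : T → MvPolynomial (P × ι) K := fun t =>
    bind₁ (fun s => copy (f t.1) ((E t.1).symm (s, t.2))) (N t.1)
  have hg : ∀ t, (g t).IsHomogeneous D := fun t => by
    have := bind_hom (N t.1) (fun s => copy (f t.1) ((E t.1).symm (s, t.2))) (e t.1) (d t.1)
      (hN1 t.1) (fun s => copy_hom _ _ (hf t.1))
    rwa [he] at this
  have hlt' : Fintype.card T * D ^ i < Fintype.card (P × ι) := by
    have h1 : (Fintype.card T : ℚ) = ∑ j, (Fintype.card P : ℚ) / m j := by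
      rw [Fintype.card_sigma, Nat.cast_sum]
      refine Finset.sum_congr rfl fun j _ => ?_
      rw [hcard j, Nat.cast_mul]
      have : (m j : ℚ) ≠ 0 := by exact_mod_cast (hm j).ne'
      field_simp
    have h2 : ((Fintype.card T * D ^ i : ℕ) : ℚ) < (Fintype.card (P × ι) : ℕ) := by
      rw [Nat.cast_mul, h1, Fintype.card_prod, Nat.cast_mul, Nat.cast_pow, Finset.sum_mul]
      have hP' : (0 : ℚ) < Fintype.card P := by exact_mod_cast hP
      calc ∑ j, (Fintype.card P : ℚ) / m j * D ^ i = Fintype.card P * ∑ j, (D : ℚ) ^ i / m j := by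
            rw [Finset.mul_sum]
            exact Finset.sum_congr rfl fun j _ => by ring
        _ < Fintype.card P * Fintype.card ι := by
            exact mul_lt_mul_of_pos_left hlt hP'
    exact_mod_cast h2
  obtain ⟨x, hx0, hx⟩ := nagata hK halg g D hD hg hlt'
  obtain ⟨⟨c, v⟩, hcv⟩ := Function.ne_iff.1 hx0
  refine ⟨fun v => x (c, v), fun h => hcv (congrFun h v), fun j => ?_⟩
  have h1 := hx ⟨j, (E j c).2⟩
  have h2 : eval x (g ⟨j, (E j c).2⟩) =
      eval (fun s => eval x (copy (f j) ((E j).symm (s, (E j c).2)))) (N j) := eval_bind _ _ _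
  rw [h2] at h1
  have h3 := congrFun (hN2 j _ h1) (E j c).1
  have h4 : (E j).symm ((E j c).1, (E j c).2) = c := (E j).symm_apply_apply c
  simp only [h4, eval_copy] at h3
  exact h3

end Pool.Agent.H19CI
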