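import Pool.Agent.H19CI.C

/-! Powers of a system of forms, and forms of power degrees. -/

set_option autoImplicit false

open MvPolynomial

namespace Pool.Agent.H19CI

variable {K : Type*} [Field K]

/-- the `k`-th power of an anisotropic system -/
theorem syspow {J ι : Type} (f : J → MvPolynomial ι K) (d : J → ℕ)
    (hf : ∀ j, (f j).IsHomogeneous (d j)) (hani : Aniso f) (k : ℕ) :
    ∃ g : (Fin k → J) → MvPolynomial (Fin k → ι) K,
      (∀ l, (g l).IsHomogeneous (∏ t, d (l t))) ∧ Aniso g := by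
  induction k with
  | zero =>
    refine ⟨fun _ => X default, fun l => ?_, fun x hx => ?_⟩
    · rw [Finset.univ_eq_empty, Finset.prod_empty]
      exact isHomogeneous_X K _
    · funext v
      have := hx default
      rw [eval_X] at this
      rw [Subsingleton.elim v default, this]
      rfl
  | succ k ih =>
    obtain ⟨g, hg1, hg2⟩ := ih
    refine ⟨fun l => bind₁ (fun s : ι => rename (fun v : Fin k → ι => (Fin.cons s v : Fin (k + 1) → ι))
      (g (Fin.tail l))) (f (l 0)), fun l => ?_, fun x hx => ?_⟩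
    · rw [Fin.prod_univ_succ]
      exact bind_hom _ _ _ _ (hf (l 0)) fun s => (hg1 (Fin.tail l)).rename_isHomogeneous
    · have h1 : ∀ (l' : Fin k → J) (s : ι),
          eval (fun v => x (Fin.cons s v : Fin (k + 1) → ι)) (g l') = 0 := by
        intro l' s
        have h2 : (fun s : ι => eval x (rename (fun v : Fin k → ι =>
            (Fin.cons s v : Fin (k + 1) → ι)) (g l'))) = 0 := hani _ fun j => by
          have h3 := hx (Fin.cons j l' : Fin (k + 1) → J)
          rw [eval_bind] at h3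
          simpa using h3
        have h4 := congrFun h2 s
        simp only [eval_rename] at h4
        exact h4
      funext v
      have h5 := congrFun (hg2 _ fun l' => h1 l' (v 0)) (Fin.tail v)
      simp only [Fin.cons_self_tail] at h5
      exact h5

theorem HasForm.one {a : ℕ} (ha : 0 < a) : HasForm K a (Fin 1) := by
  refine ⟨X 0 ^ a, ?_, fun x hx => ?_⟩
  · have := (isHomogeneous_X K (0 : Fin 1)).pow a
    rwa [one_mul] at this
  · rw [map_pow, eval_X] at hx
    funext i
    rw [Subsingleton.elim i 0]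
    exact (pow_eq_zero_iff ha.ne').1 hx

theorem HasForm.pow {a m : ℕ} (hA : HasForm K a (Fin m)) (k : ℕ) :
    HasForm K (a ^ k) (Fin (m ^ k)) := by
  cases k with
  | zero => simpa using HasForm.one (K := K) one_pos
  | succ k => exact hA.powFin k

theorem HasForm.prod {J : Type} (s : Finset J) (e m : J → ℕ)
    (h : ∀ j, HasForm K (e j) (Fin (m j))) :
    HasForm K (∏ j ∈ s, e j) (Fin (∏ j ∈ s, m j)) := by
  classical
  induction s using Finset.induction_on with
  | empty => simpa using HasForm.one (K := K) one_pos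
  | insert j s hj ih =>
    rw [Finset.prod_insert hj, Finset.prod_insert hj]
    exact (h j).compFin ih

/-- forms whose degrees are arbitrary powers of `d` -/
theorem exists_powers {d κ m0 : ℕ} (hd : 0 < d) (hκ : 0 < κ) (γ : ℝ) (hγ : 1 ≤ γ)
    (h : HasForm K (d ^ κ) (Fin m0)) (hm0 : γ ^ κ ≤ m0) (t : ℕ) :
    ∃ m, 0 < m ∧ HasForm K (d ^ t) (Fin m) ∧ γ ^ t ≤ γ ^ κ * m := by
  have hγ0 : 0 < γ := lt_of_lt_of_le one_pos hγ
  have hm0pos : 0 < m0 := by
    have : (0 : ℝ) < m0 := lt_of_lt_of_le (pow_pos hγ0 _) hm0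
    exact_mod_cast this
  refine ⟨m0 ^ (t / κ), Nat.pow_pos hm0pos, ?_, ?_⟩
  · have h1 := (h.pow (t / κ)).compFin (HasForm.one (K := K) (Nat.pow_pos (n := t % κ) hd))
    rw [← pow_mul, ← pow_add, Nat.div_add_mod, mul_one] at h1
    exact h1
  · have h1 : γ ^ t = γ ^ (t % κ) * (γ ^ κ) ^ (t / κ) := by
      rw [← pow_mul, ← pow_add, Nat.mod_add_div]
    rw [h1, Nat.cast_pow]
    have h2 : γ ^ (t % κ) ≤ γ ^ κ := pow_le_pow_right₀ hγ (Nat.mod_lt _ hκ).le
    have h3 : (γ ^ κ) ^ (t / κ) ≤ (m0 : ℝ) ^ (t / κ) :=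
      pow_le_pow_left₀ (pow_nonneg hγ0.le _) hm0 _
    exact mul_le_mul h2 h3 (by positivity) (by positivity)

theorem prod_identity {R J : Type*} [CommMonoid R] [Fintype J] [DecidableEq J] (k : ℕ)
    (c : J → R) (l : Fin k → J) :
    (∏ j, c j ^ (Finset.univ.filter fun t => l t = j).card) = ∏ t, c (l t) := by
  have h1 : ∀ j, c j ^ (Finset.univ.filter fun t => l t = j).card =
      ∏ t, (if l t = j then c j else 1) := by
    intro j
    rw [← Finset.prod_const, Finset.prod_filter]
  have h2 : ∀ t, c (l t) = ∏ j, (if l t = j then c j else 1) := fun t => by simp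
  simp only [h1]
  rw [Finset.prod_comm]
  exact (Finset.prod_congr rfl fun t _ => h2 t).symm

theorem system_growth {i : ℕ} (hK : IsC K i) (halg : ¬ IsAlgClosed K) {J ι : Type} [Fintype J]
    [Fintype ι] (f : J → MvPolynomial ι K) (d : J → ℕ)
    (hf : ∀ j, (f j).IsHomogeneous (d j)) (D : ℕ) (hD : 0 < D) (e κ m0 : J → ℕ)
    (he : ∀ j, e j * d j = D) (hκ : ∀ j, 0 < κ j)
    (γ : J → ℝ) (hγ : ∀ j, 1 ≤ γ j) (hN : ∀ j, HasForm K (e j ^ κ j) (Fin (m0 j)))
    (hm0 : ∀ j, γ j ^ κ j ≤ m0 j)
    (hlt : ∑ j, (D : ℝ) ^ i / γ j < Fintype.card ι) :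
    ∃ x : ι → K, x ≠ 0 ∧ ∀ j, eval x (f j) = 0 := by
  classical
  by_contra hcon
  push Not at hcon
  have hani : Aniso f := by
    intro x hx
    by_contra h
    obtain ⟨t, ht⟩ := hcon x h
    exact ht (hx t)
  have hepos : ∀ j, 0 < e j := fun j =>
    Nat.pos_of_ne_zero fun h => hD.ne' (by rw [← he j, h, zero_mul])
  choose μ hμ1 hμ2 hμ3 using fun j (t : ℕ) =>
    exists_powers (K := K) (hepos j) (hκ j) (γ j) (hγ j) (hN j) (hm0 j) t
  have hγ0 : ∀ j, 0 < γ j := fun j => lt_of_lt_of_le one_pos (hγ j)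
  set n := Fintype.card ι with hn
  set B : ℝ := ∑ j, (D : ℝ) ^ i / γ j with hB
  set c : ℝ := ∏ j, γ j ^ κ j with hc
  have hcpos : 0 < c := Finset.prod_pos fun j _ => pow_pos (hγ0 j) _
  have hDr : (0 : ℝ) < D := by exact_mod_cast hD
  have key : ∀ k : ℕ, (n : ℝ) ^ k ≤ c * B ^ k := by
    intro k
    obtain ⟨g, hg1, hg2⟩ := syspow f d hf hani k
    let b : (Fin k → J) → J → ℕ := fun l j => (Finset.univ.filter fun t => l t = j).card
    let m : (Fin k → J) → ℕ := fun l => ∏ j, μ j (b l j)
    by_contra hlt'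
    push Not at hlt'
    obtain ⟨x, hx0, hx⟩ := system hK halg g (fun l => ∏ t, d (l t)) hg1 (D ^ k)
      (Nat.pow_pos hD) (fun l => ∏ j, e j ^ b l j) m
      (fun l => by
        show (∏ j, e j ^ (Finset.univ.filter fun t => l t = j).card) * ∏ t, d (l t) = D ^ k
        rw [prod_identity k e l, ← Finset.prod_mul_distrib, Finset.prod_congr rfl
          fun t _ => he (l t)]
        simp)
      (fun l => Finset.prod_pos fun j _ => hμ1 j _)
      (fun l => HasForm.prod _ _ _ fun j => hμ2 j _) (by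
        have h1 : ((∑ l, ((D ^ k : ℕ) : ℚ) ^ i / (m l : ℕ) : ℚ) : ℝ) <
            ((Fintype.card (Fin k → ι) : ℚ) : ℝ) := by
          push_cast
          rw [Fintype.card_fun, Fintype.card_fin, ← hn]
          push_cast
          refine lt_of_le_of_lt ?_ hlt'
          have h2 : ∀ l : Fin k → J, ((D : ℝ) ^ k) ^ i / (m l : ℝ) ≤
              c * ∏ t, ((D : ℝ) ^ i / γ (l t)) := by
            intro l
            have hmpos : (0 : ℝ) < m l := by
              have : 0 < m l := Finset.prod_pos fun j _ => hμ1 j _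
              exact_mod_cast this
            rw [div_le_iff₀ hmpos]
            have h3 : ∏ t, γ (l t) ≤ c * m l := by
              rw [← prod_identity k γ l]
              have h4 : ∏ j, γ j ^ b l j ≤ ∏ j, (γ j ^ κ j * (μ j (b l j) : ℝ)) :=
                Finset.prod_le_prod (fun j _ => (pow_pos (hγ0 j) _).le) fun j _ => hμ3 j _
              rw [Finset.prod_mul_distrib] at h4
              simpa [m, hc, b] using h4
            have h5 : (0 : ℝ) < ∏ t, γ (l t) := Finset.prod_pos fun t _ => hγ0 _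
            have h6 : ∏ t, ((D : ℝ) ^ i / γ (l t)) = ((D : ℝ) ^ k) ^ i / ∏ t, γ (l t) := by
              rw [Finset.prod_div_distrib]
              simp [← pow_mul, mul_comm]
            rw [h6]
            calc ((D : ℝ) ^ k) ^ i = ((D : ℝ) ^ k) ^ i / (∏ t, γ (l t)) * ∏ t, γ (l t) := by
                  rw [div_mul_cancel₀ _ h5.ne']
              _ ≤ ((D : ℝ) ^ k) ^ i / (∏ t, γ (l t)) * (c * m l) :=
                  mul_le_mul_of_nonneg_left h3 (by positivity)
              _ = _ := by ring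
          refine (Finset.sum_le_sum fun l _ => h2 l).trans (le_of_eq ?_)
          rw [← Finset.mul_sum, hB, Fintype.sum_pow]
        exact_mod_cast h1)
    exact hx0 (hg2 x hx)
  have hB0 : 0 ≤ B := Finset.sum_nonneg fun j _ => div_nonneg (by positivity) (hγ0 j).le
  rcases hB0.eq_or_lt with h0 | hpos
  · have h1 := key 1
    rw [← h0] at h1 hlt
    simp only [pow_one, mul_zero] at h1
    exact absurd hlt (not_lt.2 h1)
  · obtain ⟨k, hk⟩ := pow_unbounded_of_one_lt c ((one_lt_div hpos).2 hlt)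
    have h1 := key k
    rw [div_pow, lt_div_iff₀ (pow_pos hpos k)] at hk
    linarith

end Pool.Agent.H19CI
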